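import Mathlib

/-!
Every upper quasi-density on the positive integers extends in exactly one way to an upper
quasi-density on the nonnegative integers.
-/

namespace Pool.Agent.Results.MP_32b555_nt.UniqueExtension

/-- The set `k · X + h = {k x + h : x ∈ X}`. -/
def dil (k h : ℕ) (X : Set ℕ) : Set ℕ := (fun x => k * x + h) '' X

/-- `μ` is an upper quasi-density on `H ⊆ ℕ`.  Only the values of `μ` at subsets of `H` matter.
The axioms are (F1), (F3), (F4♭) and boundedness by `1`; monotonicity is not assumed. -/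
structure IsUpperQuasiDensity (H : Set ℕ) (μ : Set ℕ → ℝ) : Prop where
  F1 : μ H = 1
  F3 : ∀ X Y : Set ℕ, X ⊆ H → Y ⊆ H → μ (X ∪ Y) ≤ μ X + μ Y
  F4 : ∀ X : Set ℕ, X ⊆ H → ∀ h k : ℕ, 0 < h → 0 < k → μ (dil k h X) = μ X / k
  le_one : ∀ X : Set ℕ, X ⊆ H → μ X ≤ 1

/-- The set `ℕ⁺ = {1, 2, 3, ...}` of positive integers. -/
def Pos : Set ℕ := {n | 0 < n}

theorem dil_subset_pos (k h : ℕ) (X : Set ℕ) (hh : 0 < h) : dil k h X ⊆ Pos := by
  rintro _ ⟨x, -, rfl⟩
  show 0 < k * x + h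
  omega

theorem dil_one_dil (k h g : ℕ) (X : Set ℕ) : dil 1 g (dil k h X) = dil k (h + g) X := by
  ext n
  simp only [dil, Set.mem_image, exists_exists_and_eq_and]
  refine exists_congr fun x => and_congr_right fun _ => ?_
  constructor <;> intro h1 <;> omega

theorem dil_dil_one (k h : ℕ) (X : Set ℕ) : dil k h (dil 1 1 X) = dil k (k + h) X := by
  ext n
  simp only [dil, Set.mem_image, exists_exists_and_eq_and]
  refine exists_congr fun x => and_congr_right fun _ => ?_
  constructor <;> intro h1 <;> nlinarith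

/-- Every upper quasi-density on `ℕ⁺` has exactly one extension to an upper quasi-density on
`ℕ`. -/
theorem result : ∀ μ : Set ℕ → ℝ, IsUpperQuasiDensity Pos μ →
    ∃! ν : Set ℕ → ℝ, IsUpperQuasiDensity Set.univ ν ∧ ∀ X : Set ℕ, X ⊆ Pos → ν X = μ X := by
  intro μ hμ
  have hshift : ∀ X : Set ℕ, X ⊆ Pos → ∀ g : ℕ, 0 < g → μ (dil 1 g X) = μ X := by
    intro X hX g hg
    have := hμ.F4 X hX g 1 hg one_pos
    simpa using this
  refine ⟨fun X => μ (dil 1 1 X), ⟨⟨?_, ?_, ?_, ?_⟩, ?_⟩, ?_⟩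
  · have h1 : dil 1 1 Set.univ = Pos := by
      ext n
      simp only [dil, Set.image_univ, Set.mem_range, Pos, Set.mem_ofPred_eq]
      constructor
      · rintro ⟨y, rfl⟩; omega
      · intro hn; exact ⟨n - 1, by omega⟩
    show μ (dil 1 1 Set.univ) = 1
    rw [h1, hμ.F1]
  · intro X Y _ _
    show μ (dil 1 1 (X ∪ Y)) ≤ μ (dil 1 1 X) + μ (dil 1 1 Y)
    have h1 : dil 1 1 (X ∪ Y) = dil 1 1 X ∪ dil 1 1 Y := Set.image_union _ _ _
    rw [h1]
    exact hμ.F3 _ _ (dil_subset_pos 1 1 X one_pos) (dil_subset_pos 1 1 Y one_pos)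
  · intro X _ h k hh hk
    show μ (dil 1 1 (dil k h X)) = μ (dil 1 1 X) / k
    rw [hshift _ (dil_subset_pos k h X hh) 1 one_pos,
      ← hμ.F4 _ (dil_subset_pos 1 1 X one_pos) h k hh hk, dil_dil_one,
      ← hshift _ (dil_subset_pos k h X hh) k hk, dil_one_dil, add_comm]
  · intro X _
    exact hμ.le_one _ (dil_subset_pos 1 1 X one_pos)
  · intro X hX
    exact hshift X hX 1 one_pos
  · rintro ν ⟨hν, hext⟩
    funext X
    have h1 := hν.F4 X (Set.subset_univ X) 1 1 one_pos one_pos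
    rw [hext _ (dil_subset_pos 1 1 X one_pos)] at h1
    simp only [Nat.cast_one, div_one] at h1
    exact h1.symm

end Pool.Agent.Results.MP_32b555_nt.UniqueExtension
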